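import Pool.Agent.Lib.MP_decb17_al.Reps

/-! Finite quotients of `G`: the affine models and the exponent sums. -/

namespace Pool.Agent.Lib.MP_decb17_al

open Polynomial

/-- The admissible weights. -/
def lam (u1 u2 u3 u4 : ℤ) (j : J) : ℤ :=
  if j.2 then ![-(u1 + u2 + u3), u1, u3] j.1 else ![-(u1 + u3 + u4), u2, u4] j.1

lemma addLeft_mul {F : Type*} [AddGroup F] (a b : F) :
    (Equiv.addLeft a : Equiv.Perm F) * Equiv.addLeft b = Equiv.addLeft (a + b) := by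
  ext x; simp

lemma addLeft_zero' {F : Type*} [AddGroup F] :
    (Equiv.addLeft (0 : F) : Equiv.Perm F) = 1 := by
  ext x; simp

lemma mulLeft_conj {F : Type*} [Field F] (h : F) (hh : h ≠ 0) (a : F) :
    (Equiv.mulLeft₀ h hh : Equiv.Perm F) * Equiv.addLeft a * (Equiv.mulLeft₀ h hh)⁻¹ =
      Equiv.addLeft (h * a) := by
  rw [mul_inv_eq_iff_eq_mul]
  ext x; simp [mul_add]

/-- The affine model attached to an admissible weight. -/
def aModel {F : Type} [Field F] (u1 u2 u3 u4 : ℤ) (τ : F) (h0 : τ ≠ 0) (h1 : 1 + τ ≠ 0) :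
    Model (Equiv.Perm F) F where
  τ := τ
  s := Equiv.mulLeft₀ (1 + τ) h1
  t := Equiv.mulLeft₀ τ h0
  l j c := Equiv.addLeft (lam u1 u2 u3 u4 j * c)
  add j c d := by rw [addLeft_mul, mul_add]
  st := by
    unfold Commute SemiconjBy
    ext x; simp [mul_left_comm]
  conj_t j c := by rw [mulLeft_conj, mul_left_comm]
  conj_s j c := by rw [mulLeft_conj, mul_left_comm]
  comm_ne j k c d _ := by
    unfold Commute SemiconjBy
    rw [addLeft_mul, addLeft_mul, add_comm]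
  comm_two j k c d := by
    unfold Commute SemiconjBy
    rw [addLeft_mul, addLeft_mul, add_comm]
  lin1 c := by
    simp only [addLeft_mul]
    rw [← addLeft_zero']
    congr 1
    simp [lam]; ring
  lin2 c := by
    simp only [addLeft_mul]
    rw [← addLeft_zero']
    congr 1
    simp [lam]; ring

/-- `g` acts in all affine models of weight `w` as the translation by `P(τ)`. -/
def HasDeg (w : J → ℤ) (g : G) (P : ℤ[X]) : Prop :=
  ∀ (F : Type) [Field F] (τ : F) (φ : G →* Equiv.Perm F),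
    (∀ j f, φ (rho j f) = Equiv.addLeft (w j * aeval τ f)) → φ g = Equiv.addLeft (aeval τ P)

lemma hasDeg_rho (w : J → ℤ) (j : J) (f : ℤ[X]) : HasDeg w (rho j f) (w j * f) := by
  intro F _ τ φ h
  rw [h, map_mul, map_intCast]

lemma HasDeg.mul {w : J → ℤ} {g g' : G} {P P' : ℤ[X]} (h : HasDeg w g P) (h' : HasDeg w g' P') :
    HasDeg w (g * g') (P + P') := by
  intro F _ τ φ hφ
  rw [map_mul, h F τ φ hφ, h' F τ φ hφ, addLeft_mul, map_add]

lemma HasDeg.pow {w : J → ℤ} {g : G} {P : ℤ[X]} (h : HasDeg w g P) (n : ℕ) :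
    HasDeg w (g ^ n) (n * P) := by
  induction n with
  | zero =>
    intro F _ τ φ _
    simp
  | succ n ih =>
    have := ih.mul h
    rw [pow_succ]
    convert this using 1
    push_cast; ring

lemma exists_prime_eval {P : ℤ[X]} (hP : P ≠ 0) :
    ∃ (p : ℕ) (_ : Fact p.Prime) (τ : ZMod p), τ ≠ 0 ∧ 1 + τ ≠ 0 ∧ aeval τ P ≠ 0 := by
  have h1 : X * (1 + X) * P ≠ 0 := by
    refine mul_ne_zero (mul_ne_zero X_ne_zero ?_) hP
    rw [add_comm, ← C_1]; exact X_add_C_ne_zero 1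
  obtain ⟨m, hm⟩ : ∃ m : ℤ, (X * (1 + X) * P).eval m ≠ 0 := by
    by_contra hcon
    push Not at hcon
    exact h1 (zero_of_eval_zero _ hcon)
  obtain ⟨p, hp1, hp⟩ := Nat.exists_infinite_primes (((X * (1 + X) * P).eval m).natAbs + 1)
  have : Fact p.Prime := ⟨hp⟩
  have h2 : (((X * (1 + X) * P).eval m : ℤ) : ZMod p) ≠ 0 := by
    rw [Ne, ZMod.intCast_zmod_eq_zero_iff_dvd]
    intro hd
    have := Int.natAbs_le_of_dvd_ne_zero hd hm
    simp only [Int.natAbs_natCast] at this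
    omega
  have h3 : (((X * (1 + X) * P).eval m : ℤ) : ZMod p) = aeval (m : ZMod p) (X * (1 + X) * P) := by
    have := aeval_algebraMap_apply_eq_algebraMap_eval (A := ZMod p) m (X * (1 + X) * P)
    simpa only [algebraMap_int_eq, eq_intCast] using this.symm
  rw [h3] at h2
  simp only [map_mul, aeval_X, map_add, map_one, ne_eq, mul_eq_zero, not_or] at h2
  exact ⟨p, this, m, h2.1.1, h2.1.2, h2.2⟩

lemma HasDeg.det {u1 u2 u3 u4 : ℤ} {g : G} {P : ℤ[X]} (h : HasDeg (lam u1 u2 u3 u4) g P)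
    (hP : P ≠ 0) : Det g := by
  obtain ⟨p, hp, τ, h0, h1, h2⟩ := exists_prime_eval hP
  obtain ⟨φ, -, -, hφ⟩ := (aModel u1 u2 u3 u4 τ h0 h1).exists_hom'
  apply det_of_hom φ
  rw [h (ZMod p) τ φ hφ]
  intro h3
  have := DFunLike.congr_fun h3 0
  simp only [Equiv.coe_addLeft, add_zero, Equiv.Perm.coe_one, id_eq] at this
  exact h2 this

lemma HasDeg.eq_zero {u1 u2 u3 u4 : ℤ} {g : G} {P : ℤ[X]} (h : HasDeg (lam u1 u2 u3 u4) g P)
    {n : ℕ} (hn : n ≠ 0) (hg : g ^ n = 1) : P = 0 := by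
  by_contra hP
  exact ((h.pow n).det (mul_ne_zero (Nat.cast_ne_zero.mpr hn) hP)).ne_one hg

lemma hasDeg_zf (u1 u2 u3 u4 : ℤ) (r1 r2 r3 r4 : ℤ[X]) :
    HasDeg (lam u1 u2 u3 u4) (zf r1 r2 r3 r4)
      (2 * (u1 * r1 + u2 * r2 + u3 * r3 + u4 * r4)) := by
  have := (((hasDeg_rho (lam u1 u2 u3 u4) (1, true) (2 * r1)).mul
    (hasDeg_rho _ (1, false) (2 * r2))).mul (hasDeg_rho _ (2, true) (2 * r3))).mul
    (hasDeg_rho _ (2, false) (2 * r4))
  have e : (2 * (u1 * r1 + u2 * r2 + u3 * r3 + u4 * r4) : ℤ[X]) =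
      lam u1 u2 u3 u4 (1, true) * (2 * r1) + lam u1 u2 u3 u4 (1, false) * (2 * r2) +
      lam u1 u2 u3 u4 (2, true) * (2 * r3) + lam u1 u2 u3 u4 (2, false) * (2 * r4) := by
    simp [lam]; ring
  rw [e]
  exact this

lemma IsZ.det {z : G} (hz : IsZ z) (h : z ≠ 1) : Det z := by
  obtain ⟨r1, r2, r3, r4, rfl⟩ := hz
  by_cases h1 : r1 = 0
  · by_cases h2 : r2 = 0
    · by_cases h3 : r3 = 0
      · by_cases h4 : r4 = 0
        · subst h1 h2 h3 h4
          exact absurd zf_zero h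
        · exact (hasDeg_zf 0 0 0 1 r1 r2 r3 r4).det (by simpa using h4)
      · exact (hasDeg_zf 0 0 1 0 r1 r2 r3 r4).det (by simpa using h3)
    · exact (hasDeg_zf 0 1 0 0 r1 r2 r3 r4).det (by simpa using h2)
  · exact (hasDeg_zf 1 0 0 0 r1 r2 r3 r4).det (by simpa using h1)

lemma IsZ.eq_one {z : G} (hz : IsZ z) {n : ℕ} (hn : n ≠ 0) (h : z ^ n = 1) : z = 1 := by
  obtain ⟨r1, r2, r3, r4, rfl⟩ := hz
  have h1 : r1 = 0 := by simpa using (hasDeg_zf 1 0 0 0 r1 r2 r3 r4).eq_zero hn h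
  have h2 : r2 = 0 := by simpa using (hasDeg_zf 0 1 0 0 r1 r2 r3 r4).eq_zero hn h
  have h3 : r3 = 0 := by simpa using (hasDeg_zf 0 0 1 0 r1 r2 r3 r4).eq_zero hn h
  have h4 : r4 = 0 := by simpa using (hasDeg_zf 0 0 0 1 r1 r2 r3 r4).eq_zero hn h
  subst h1 h2 h3 h4
  exact zf_zero

lemma short_torsion {z : G} (hz : IsZ z) (b0 b1 b2 : Bool) (f0 f1 f2 : ℤ[X]) {n : ℕ}
    (hn : n ≠ 0) (h : (z * (rho (0, b0) f0 * rho (1, b1) f1 * rho (2, b2) f2)) ^ n = 1) :
    z * (rho (0, b0) f0 * rho (1, b1) f1 * rho (2, b2) f2) = 1 := by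
  have key : (2 : ℤ[X]) ∣ f0 ∧ (2 : ℤ[X]) ∣ f1 ∧ (2 : ℤ[X]) ∣ f2 := by
    obtain ⟨r1, r2, r3, r4, rfl⟩ := hz
    have e : ∀ u1 u2 u3 u4 : ℤ, 2 * (u1 * r1 + u2 * r2 + u3 * r3 + u4 * r4) +
        (lam u1 u2 u3 u4 (0, b0) * f0 + lam u1 u2 u3 u4 (1, b1) * f1 +
          lam u1 u2 u3 u4 (2, b2) * f2) = 0 := fun u1 u2 u3 u4 =>
      ((hasDeg_zf u1 u2 u3 u4 r1 r2 r3 r4).mul (((hasDeg_rho _ _ _).mul
        (hasDeg_rho _ _ _)).mul (hasDeg_rho _ _ _))).eq_zero hn h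
    have e1 := e 1 0 0 0
    have e2 := e 0 1 0 0
    have e3 := e 0 0 1 0
    have e4 := e 0 0 0 1
    cases b0 <;> cases b1 <;> cases b2 <;> simp [lam] at e1 e2 e3 e4
    · exact ⟨⟨r1, by linear_combination -e1⟩, ⟨-r2, by linear_combination e2⟩,
        ⟨r1 - r4, by linear_combination e4 - e1⟩⟩
    · exact ⟨⟨r1, by linear_combination -e1⟩, ⟨-r2, by linear_combination e2⟩,
        ⟨r1 - r3, by linear_combination e3 - e1⟩⟩
    · exact ⟨⟨r3, by linear_combination -e3⟩, ⟨r3 - r1, by linear_combination e1 - e3⟩,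
        ⟨r3 - r4, by linear_combination e4 - e3⟩⟩
    · exact ⟨⟨r4, by linear_combination -e4⟩, ⟨r4 - r1, by linear_combination e1 - e4⟩,
        ⟨r4 - r3, by linear_combination e3 - e4⟩⟩
    · exact ⟨⟨r1, by linear_combination -e1⟩, ⟨r1 - r2, by linear_combination e2 - e1⟩,
        ⟨-r4, by linear_combination e4⟩⟩
    · exact ⟨⟨r1, by linear_combination -e1⟩, ⟨r1 - r2, by linear_combination e2 - e1⟩,
        ⟨r1 - r3, by linear_combination e3 - e1⟩⟩
    · exact ⟨⟨r2, by linear_combination -e2⟩, ⟨r2 - r1, by linear_combination e1 - e2⟩,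
        ⟨-r4, by linear_combination e4⟩⟩
    · exact ⟨⟨r2, by linear_combination -e2⟩, ⟨r2 - r1, by linear_combination e1 - e2⟩,
        ⟨r2 - r3, by linear_combination e3 - e2⟩⟩
  exact (hz.mul (((isZ_rho' _ key.1).mul (isZ_rho' _ key.2.1)).mul
    (isZ_rho' _ key.2.2))).eq_one hn h

/-- The model recording the exponent sums of `s` and `t`. -/
def eModel : Model (Multiplicative (ℤ × ℤ)) ℤ where
  τ := 0
  s := Multiplicative.ofAdd (1, 0)
  t := Multiplicative.ofAdd (0, 1)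
  l _ _ := 1
  add := by simp
  st := Commute.all _ _
  conj_t := by simp
  conj_s := by simp
  comm_ne := by simp
  comm_two := by simp
  lin1 := by simp
  lin2 := by simp

lemma exists_eta : ∃ η : G →* Multiplicative (ℤ × ℤ), ∀ g, η g = 1 → g ∈ Kinf := by
  obtain ⟨η, h1, h2, h3⟩ := eModel.exists_hom
  exact ⟨η, fun g hg => mem_Kinf η h1 h2 h3 hg⟩

lemma det_of_eta (η : G →* Multiplicative (ℤ × ℤ)) {g : G} (h : η g ≠ 1) : Det g := by
  let m : ℕ := (η g).toAdd.1.natAbs + (η g).toAdd.2.natAbs + 1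
  have : NeZero m := ⟨by omega⟩
  let π : ℤ × ℤ →+ ZMod m × ZMod m :=
    AddMonoidHom.prodMap (Int.castAddHom (ZMod m)) (Int.castAddHom (ZMod m))
  apply det_of_hom ((AddMonoidHom.toMultiplicative π).comp η)
  intro h1
  apply h
  have h2 : π (η g).toAdd = 0 := congrArg Multiplicative.toAdd h1
  have h3 : (((η g).toAdd.1 : ℤ) : ZMod m) = 0 := congrArg Prod.fst h2
  have h4 : (((η g).toAdd.2 : ℤ) : ZMod m) = 0 := congrArg Prod.snd h2
  rw [ZMod.intCast_zmod_eq_zero_iff_dvd] at h3 h4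
  have h5 : (η g).toAdd.1 = 0 := by
    by_contra h0
    have := Int.natAbs_le_of_dvd_ne_zero h3 h0
    simp only [Int.natAbs_natCast] at this
    omega
  have h6 : (η g).toAdd.2 = 0 := by
    by_contra h0
    have := Int.natAbs_le_of_dvd_ne_zero h4 h0
    simp only [Int.natAbs_natCast] at this
    omega
  have : (η g).toAdd = 0 := Prod.ext h5 h6
  exact toAdd_eq_zero.mp this

end Pool.Agent.Lib.MP_decb17_al
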