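import Pool.Agent.Lib.MP_decb17_al.Defs

/-! Baumslag's lemma, and the model of the relations on `G` itself over `ℤ[X]`. -/

namespace Pool.Agent.Lib.MP_decb17_al

open Polynomial
open scoped commutatorElement IsMulCommutative

section general
variable {Q : Type*} [Group Q]

/-- Conjugation by `t ^ n`. -/
def cj (t : Q) (n : ℕ) (u : Q) : Q := t ^ n * u * (t ^ n)⁻¹

lemma cj_zero (t u : Q) : cj t 0 u = u := by simp [cj]

lemma cj_succ (t u : Q) (n : ℕ) : cj t (n + 1) u = t * cj t n u * t⁻¹ := by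
  simp [cj, pow_succ', mul_assoc]

lemma cj_one (t u : Q) : cj t 1 u = t * u * t⁻¹ := by simp [cj]

lemma cj_add (t u : Q) (m n : ℕ) : cj t (m + n) u = cj t m (cj t n u) := by
  simp [cj, pow_add, mul_assoc]

lemma cj_mul (t u v : Q) (n : ℕ) : cj t n (u * v) = cj t n u * cj t n v := by
  simp [cj, mul_assoc]

lemma cj_sq (t u : Q) (n : ℕ) : cj t n (u ^ 2) = cj t n u ^ 2 := by
  rw [sq, sq, cj_mul]

lemma cj_pow (t u : Q) (n k : ℕ) : cj t n (u ^ k) = cj t n u ^ k := by
  simp [cj]

lemma cj_unit (t : Q) (n : ℕ) : cj t n 1 = 1 := by simp [cj]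

lemma commute_conj {u v : Q} (h : Commute u v) (g : Q) :
    Commute (g * u * g⁻¹) (g * v * g⁻¹) := by
  unfold Commute SemiconjBy at *
  simp only [mul_assoc, inv_mul_cancel_left]
  rw [← mul_assoc u, h, mul_assoc]

lemma commute_cj {u v : Q} (h : Commute u v) (t : Q) (n : ℕ) :
    Commute (cj t n u) (cj t n v) := commute_conj h _

lemma s_cj {s t u : Q} (hst : Commute s t) (hu : s * u * s⁻¹ = u * (t * u * t⁻¹)) (n : ℕ) :
    s * cj t n u * s⁻¹ = cj t n u * cj t (n + 1) u := by
  have h1 : Commute s (t ^ n) := hst.pow_right n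
  have h2 : s * cj t n u * s⁻¹ = cj t n (s * u * s⁻¹) := by
    simp only [cj, ← mul_assoc]
    rw [h1.eq, mul_assoc (t ^ n * s * u), mul_assoc (t ^ n * s * u), h1.inv_inv.eq]
  rw [h2, hu, cj_mul, cj_add, cj_one]

lemma baumslag_aux {s t u v : Q} (hst : Commute s t)
    (hu : s * u * s⁻¹ = u * (t * u * t⁻¹)) (hv : s * v * s⁻¹ = v * (t * v * t⁻¹))
    (h0 : Commute u v) (h1 : Commute u (t * v * t⁻¹)) (n : ℕ) :
    Commute u (cj t n v) ∧ Commute u (cj t (n + 1) v) := by
  induction n with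
  | zero => exact ⟨by rwa [cj_zero], by rwa [zero_add, cj_one]⟩
  | succ n ih =>
    refine ⟨ih.2, ?_⟩
    have a1 := commute_conj ih.2 s
    rw [hu, s_cj hst hv] at a1
    have a2 := commute_conj ih.1 t
    have a3 := commute_conj ih.2 t
    rw [← cj_succ] at a2 a3
    have a4 : Commute (t * u * t⁻¹) (cj t (n + 1) v * cj t (n + 1 + 1) v) := a2.mul_right a3
    have a5 : Commute u (cj t (n + 1) v * cj t (n + 1 + 1) v) := by
      have := a1.mul_left a4.inv_left
      rwa [mul_inv_cancel_right] at this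
    have := ih.2.inv_right.mul_right a5
    rwa [inv_mul_cancel_left] at this

lemma baumslag {s t u v : Q} (hst : Commute s t)
    (hu : s * u * s⁻¹ = u * (t * u * t⁻¹)) (hv : s * v * s⁻¹ = v * (t * v * t⁻¹))
    (h0 : Commute u v) (h1 : Commute u (t * v * t⁻¹)) (h2 : Commute (t * u * t⁻¹) v)
    (m n : ℕ) : Commute (cj t m u) (cj t n v) := by
  rcases le_total m n with h | h
  · obtain ⟨k, rfl⟩ := Nat.exists_eq_add_of_le h
    rw [cj_add]
    exact commute_cj (baumslag_aux hst hu hv h0 h1 k).1 t m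
  · obtain ⟨k, rfl⟩ := Nat.exists_eq_add_of_le h
    rw [cj_add]
    exact commute_cj (baumslag_aux hst hv hu h0.symm h2.symm k).1.symm t n

lemma poly_ind (P : ℤ[X] → Prop) (hX : ∀ n, P (X ^ n)) (hadd : ∀ f g, P f → P g → P (f + g))
    (hneg : ∀ f, P f → P (-f)) (f : ℤ[X]) : P f := by
  have h0 : P 0 := by
    have := hadd _ _ (hX 0) (hneg _ (hX 0))
    rwa [add_neg_cancel] at this
  induction f using Polynomial.induction_on' with
  | add p q hp hq => exact hadd _ _ hp hq
  | monomial n a =>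
    induction a using Int.induction_on with
    | zero => simpa using h0
    | succ k ih =>
      rw [map_add, ← X_pow_eq_monomial]
      exact hadd _ _ ih (hX n)
    | pred k ih =>
      rw [sub_eq_add_neg, map_add, map_neg (monomial n) 1, ← X_pow_eq_monomial]
      exact hadd _ _ ih (hneg _ (hX n))

lemma exists_rho (y : ℕ → Q) (h : ∀ m n, Commute (y m) (y n)) :
    ∃ ρ : ℤ[X] → Q, (∀ f g, ρ (f + g) = ρ f * ρ g) ∧ ∀ n, ρ (X ^ n) = y n := by
  let B : Subgroup Q := Subgroup.closure (Set.range y)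
  have : IsMulCommutative B := Subgroup.isMulCommutative_closure (by
    rintro _ ⟨m, rfl⟩ _ ⟨n, rfl⟩
    exact (h m n).eq)
  let y' : ℕ → Additive B := fun n => Additive.ofMul ⟨y n, Subgroup.subset_closure ⟨n, rfl⟩⟩
  let L : ℤ[X] →ₗ[ℤ] Additive B :=
    Polynomial.lsum (fun n => LinearMap.toSpanSingleton ℤ (Additive B) (y' n))
  refine ⟨fun f => (Additive.toMul (L f) : B), ?_, ?_⟩
  · intro f g
    simp
  · intro n
    have : L (X ^ n) = y' n := by
      simp only [L, lsum_apply, X_pow_eq_monomial]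
      rw [sum_monomial_index] <;> simp
    simp only [this]
    rfl

lemma rho_zero {ρ : ℤ[X] → Q} (h : ∀ f g, ρ (f + g) = ρ f * ρ g) : ρ 0 = 1 := by
  have := h 0 0
  rw [add_zero] at this
  exact left_eq_mul.mp this

lemma rho_neg {ρ : ℤ[X] → Q} (h : ∀ f g, ρ (f + g) = ρ f * ρ g) (f : ℤ[X]) :
    ρ (-f) = (ρ f)⁻¹ := by
  apply eq_inv_of_mul_eq_one_left
  rw [← h, neg_add_cancel, rho_zero h]

lemma rho_ext {ρ σ : ℤ[X] → Q} (h : ∀ f g, ρ (f + g) = ρ f * ρ g)
    (h' : ∀ f g, σ (f + g) = σ f * σ g) (hX : ∀ n, ρ (X ^ n) = σ (X ^ n)) (f : ℤ[X]) :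
    ρ f = σ f := by
  induction f using poly_ind with
  | hX n => exact hX n
  | hadd f g hf hg => rw [h, h', hf, hg]
  | hneg f hf => rw [rho_neg h, rho_neg h', hf]

lemma rho_comm {ρ σ : ℤ[X] → Q} (h : ∀ f g, ρ (f + g) = ρ f * ρ g)
    (h' : ∀ f g, σ (f + g) = σ f * σ g) (hX : ∀ m n, Commute (ρ (X ^ m)) (σ (X ^ n)))
    (f g : ℤ[X]) : Commute (ρ f) (σ g) := by
  induction f using poly_ind with
  | hX m =>
    induction g using poly_ind with
    | hX n => exact hX m n
    | hadd f g hf hg => rw [h']; exact hf.mul_right hg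
    | hneg f hf => rw [rho_neg h']; exact hf.inv_right
  | hadd f g hf hg => rw [h]; exact hf.mul_left hg
  | hneg f hf => rw [rho_neg h]; exact hf.inv_left

end general

lemma G_st : Commute gs gt := commutatorElement_eq_one_iff_commute.mp (relG (.inl ()))

lemma G_s (j : J) : gs * gx j * gs⁻¹ = gx j * (gt * gx j * gt⁻¹) :=
  eq_of_mul_inv_eq_one (relG (.inr (.inl j)))

lemma G_c0 (j k : J) : Commute (gx j ^ ex j k) (gx k) :=
  commutatorElement_eq_one_iff_commute.mp (relG (.inr (.inr (.inl (j, k)))))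

lemma G_c1 (j k : J) : Commute (gx j ^ ex j k) (gt * gx k * gt⁻¹) :=
  commutatorElement_eq_one_iff_commute.mp (relG (.inr (.inr (.inr (.inl (j, k))))))

lemma G_c2 (j k : J) : Commute (gt * gx j ^ ex j k * gt⁻¹) (gx k) :=
  commutatorElement_eq_one_iff_commute.mp (relG (.inr (.inr (.inr (.inr (.inl (j, k)))))))

lemma G_l1 : gx (0, true) ^ 2 * gx (1, true) ^ 2 * gx (1, false) ^ 2 * gx (2, true) ^ 2 = 1 :=
  relG (.inr (.inr (.inr (.inr (.inr true)))))

lemma G_l2 : gx (0, false) ^ 2 * gx (1, true) ^ 2 * gx (2, true) ^ 2 * gx (2, false) ^ 2 = 1 :=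
  relG (.inr (.inr (.inr (.inr (.inr false)))))

lemma G_s_pow (j : J) (e : ℕ) : gs * gx j ^ e * gs⁻¹ = gx j ^ e * (gt * gx j ^ e * gt⁻¹) := by
  have h := G_c1 j j
  have h1 : ex j j = 1 := by simp [ex]
  rw [h1, pow_one] at h
  rw [← conj_pow, G_s, h.mul_pow, conj_pow]

lemma G_comm (j k : J) (m n : ℕ) : Commute (cj gt m (gx j) ^ ex j k) (cj gt n (gx k)) := by
  rw [← cj_pow]
  exact baumslag G_st (G_s_pow j _) (G_s k) (G_c0 j k) (G_c1 j k) (G_c2 j k) m n

lemma G_comm_same (j : J) (m n : ℕ) : Commute (cj gt m (gx j)) (cj gt n (gx j)) := by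
  have h := G_comm j j m n
  have h1 : ex j j = 1 := by simp [ex]
  rwa [h1, pow_one] at h

/-- `rho j f` is `x j` raised to the polynomial `f` in the conjugation action of `t`. -/
noncomputable def rho (j : J) : ℤ[X] → G :=
  (exists_rho (fun n => cj gt n (gx j)) (G_comm_same j)).choose

lemma rho_add (j : J) (f g : ℤ[X]) : rho j (f + g) = rho j f * rho j g :=
  (exists_rho (fun n => cj gt n (gx j)) (G_comm_same j)).choose_spec.1 f g

lemma rho_X (j : J) (n : ℕ) : rho j (X ^ n) = cj gt n (gx j) :=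
  (exists_rho (fun n => cj gt n (gx j)) (G_comm_same j)).choose_spec.2 n

lemma rho_one (j : J) : rho j 1 = gx j := by
  have := rho_X j 0
  rwa [pow_zero, cj_zero] at this

lemma rho_two_X (j : J) (n : ℕ) : rho j (2 * X ^ n) = cj gt n (gx j) ^ 2 := by
  rw [two_mul, rho_add, rho_X, sq]

lemma rho_two_add (j : J) (f g : ℤ[X]) : rho j (2 * (f + g)) = rho j (2 * f) * rho j (2 * g) := by
  rw [mul_add, rho_add]

lemma rho_comm_two (j k : J) (f g : ℤ[X]) : Commute (rho j (2 * f)) (rho k g) := by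
  refine rho_comm (ρ := fun f => rho j (2 * f)) (rho_two_add j) (rho_add k) ?_ f g
  intro m n
  simp only [rho_two_X, rho_X]
  have h := G_comm j k m n
  unfold ex at h
  split_ifs at h
  · exact h
  · rw [pow_one] at h
    exact h.pow_left 2

lemma four_mul_comm {Q : Type*} [Group Q] {a b c d a' b' c' d' : Q}
    (h1 : Commute b a') (h2 : Commute c a') (h3 : Commute d a') (h4 : Commute c b')
    (h5 : Commute d b') (h6 : Commute d c') :
    a * a' * (b * b') * (c * c') * (d * d') = a * b * c * d * (a' * b' * c' * d') := by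
  simp only [mul_assoc]
  congr 1
  rw [h3.left_comm, h2.left_comm, h1.left_comm]
  congr 2
  rw [h5.left_comm, h4.left_comm]
  congr 2
  rw [h6.left_comm]

lemma rho_lin (a b c d : J) (h : gx a ^ 2 * gx b ^ 2 * gx c ^ 2 * gx d ^ 2 = 1) (f : ℤ[X]) :
    rho a (2 * f) * rho b (2 * f) * rho c (2 * f) * rho d (2 * f) = 1 := by
  refine rho_ext (ρ := fun f => rho a (2 * f) * rho b (2 * f) * rho c (2 * f) * rho d (2 * f))
    (σ := fun _ => 1) ?_ (by simp) ?_ f
  · intro f g
    simp only [rho_two_add]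
    apply four_mul_comm <;> apply rho_comm_two
  · intro n
    simp only [rho_two_X, ← cj_sq, ← cj_mul, h, cj_unit]

/-- The model of the relations on `G` itself. -/
noncomputable def GM : Model G ℤ[X] where
  τ := X
  s := gs
  t := gt
  l := rho
  add := rho_add
  st := G_st
  conj_t := by
    intro j c
    refine rho_ext (ρ := fun c => gt * rho j c * gt⁻¹) (σ := fun c => rho j (X * c)) ?_ ?_ ?_ c
    · intro f g; simp [rho_add, mul_assoc]
    · intro f g; simp only [mul_add, rho_add]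
    · intro n
      simp only [← pow_succ', rho_X, cj_succ]
  conj_s := by
    intro j c
    refine rho_ext (ρ := fun c => gs * rho j c * gs⁻¹) (σ := fun c => rho j ((1 + X) * c))
      ?_ ?_ ?_ c
    · intro f g; simp [rho_add, mul_assoc]
    · intro f g; simp only [mul_add, rho_add]
    · intro n
      simp only [add_mul, one_mul, ← pow_succ', rho_add, rho_X]
      exact s_cj G_st (G_s j) n
  comm_ne := by
    intro j k c d hjk
    refine rho_comm (rho_add j) (rho_add k) ?_ c d
    intro m n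
    have h := G_comm j k m n
    have h1 : ex j k = 1 := by simp [ex, hjk]
    rw [h1, pow_one] at h
    simpa only [rho_X] using h
  comm_two := rho_comm_two
  lin1 := rho_lin _ _ _ _ G_l1
  lin2 := rho_lin _ _ _ _ G_l2

/-- Every model receives a homomorphism from `G`, evaluating polynomials at `τ`. -/
lemma Model.exists_hom' {Q : Type*} [Group Q] {C : Type*} [CommRing C] (M : Model Q C) :
    ∃ φ : G →* Q, φ gs = M.s ∧ φ gt = M.t ∧ ∀ j f, φ (rho j f) = M.l j (aeval M.τ f) := by
  obtain ⟨φ, h1, h2, h3⟩ := M.exists_hom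
  refine ⟨φ, h1, h2, fun j f => ?_⟩
  refine rho_ext (ρ := fun f => φ (rho j f)) (σ := fun f => M.l j (aeval M.τ f)) ?_ ?_ ?_ f
  · intro f g; simp only [rho_add, map_mul]
  · intro f g; simp only [map_add, M.add]
  · intro n
    simp only [rho_X, map_pow, aeval_X]
    induction n with
    | zero => rw [cj_zero, pow_zero, h3]
    | succ n ih => rw [cj_succ, map_mul, map_mul, map_inv, ih, h2, M.conj_t, pow_succ']

end Pool.Agent.Lib.MP_decb17_al
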