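import Mathlib

/-!
The group.  Generators `s, t` and `x (i, b)` for `i : Fin 3`, `b : Bool`
(`x (i, true) = a_i`, `x (i, false) = b_i`).
-/

namespace Pool.Agent.Lib.MP_decb17_al

open Polynomial
open scoped commutatorElement

/-- Index set of the six generators `a_i`, `b_i`. -/
abbrev J := Fin 3 × Bool

/-- Generators: `inl true = s`, `inl false = t`, `inr j = x j`. -/
abbrev Gen := Bool ⊕ J

/-- Index set of the relators. -/
abbrev RelIdx := Unit ⊕ J ⊕ (J × J) ⊕ (J × J) ⊕ (J × J) ⊕ Bool

/-- The exponent: `2` for the two different generators of one pair, `1` otherwise. -/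
def ex (j k : J) : ℕ := if j.1 = k.1 ∧ j ≠ k then 2 else 1

/-- The relators, evaluated in an arbitrary group. -/
def relFun {Q : Type*} [Group Q] (s t : Q) (x : J → Q) : RelIdx → Q
  | .inl _ => ⁅s, t⁆
  | .inr (.inl j) => s * x j * s⁻¹ * (x j * (t * x j * t⁻¹))⁻¹
  | .inr (.inr (.inl p)) => ⁅x p.1 ^ ex p.1 p.2, x p.2⁆
  | .inr (.inr (.inr (.inl p))) => ⁅x p.1 ^ ex p.1 p.2, t * x p.2 * t⁻¹⁆
  | .inr (.inr (.inr (.inr (.inl p)))) => ⁅t * x p.1 ^ ex p.1 p.2 * t⁻¹, x p.2⁆
  | .inr (.inr (.inr (.inr (.inr true)))) =>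
      x (0, true) ^ 2 * x (1, true) ^ 2 * x (1, false) ^ 2 * x (2, true) ^ 2
  | .inr (.inr (.inr (.inr (.inr false)))) =>
      x (0, false) ^ 2 * x (1, true) ^ 2 * x (2, true) ^ 2 * x (2, false) ^ 2

lemma map_relFun {Q Q' : Type*} [Group Q] [Group Q'] (φ : Q →* Q') (s t : Q) (x : J → Q)
    (r : RelIdx) : φ (relFun s t x r) = relFun (φ s) (φ t) (fun j => φ (x j)) r := by
  rcases r with _ | j | p | p | p | b
  · simp [relFun, commutatorElement_def]
  · simp [relFun]
  · simp [relFun, commutatorElement_def]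
  · simp [relFun, commutatorElement_def]
  · simp [relFun, commutatorElement_def]
  · cases b <;> simp [relFun]

/-- The finite set of relators. -/
def rels : Set (FreeGroup Gen) :=
  Set.range (relFun (FreeGroup.of (Sum.inl true)) (FreeGroup.of (Sum.inl false))
    (fun j => FreeGroup.of (Sum.inr j)))

lemma rels_finite : rels.Finite := Set.finite_range _

/-- The group. -/
abbrev G := PresentedGroup rels

def gs : G := PresentedGroup.of (Sum.inl true)
def gt : G := PresentedGroup.of (Sum.inl false)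
def gx (j : J) : G := PresentedGroup.of (Sum.inr j)

lemma relG (r : RelIdx) : relFun gs gt gx r = 1 := by
  have h := map_relFun (PresentedGroup.mk rels) (FreeGroup.of (Sum.inl true))
    (FreeGroup.of (Sum.inl false)) (fun j => FreeGroup.of (Sum.inr j)) r
  have h2 : PresentedGroup.mk rels (relFun (FreeGroup.of (Sum.inl true))
    (FreeGroup.of (Sum.inl false)) (fun j => FreeGroup.of (Sum.inr j)) r) = 1 :=
    PresentedGroup.one_of_mem ⟨r, rfl⟩
  rw [h2] at h
  exact h.symm

lemma exists_lift {Q : Type*} [Group Q] (s t : Q) (x : J → Q)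
    (h : ∀ r, relFun s t x r = 1) :
    ∃ φ : G →* Q, φ gs = s ∧ φ gt = t ∧ ∀ j, φ (gx j) = x j := by
  let f : Gen → Q := Sum.elim (fun b => if b then s else t) x
  have hf : ∀ r ∈ rels, FreeGroup.lift f r = 1 := by
    rintro _ ⟨r, rfl⟩
    rw [map_relFun]
    simpa [f] using h r
  refine ⟨PresentedGroup.toGroup hf, ?_, ?_, ?_⟩
  · simp [gs, f]
  · simp [gt, f]
  · intro j; simp [gx, f]

/-- A model of the relations, parametrised by a commutative ring `C` with an element `τ`. -/
structure Model (Q : Type*) [Group Q] (C : Type*) [CommRing C] where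
  τ : C
  s : Q
  t : Q
  l : J → C → Q
  add : ∀ j c d, l j (c + d) = l j c * l j d
  st : Commute s t
  conj_t : ∀ j c, t * l j c * t⁻¹ = l j (τ * c)
  conj_s : ∀ j c, s * l j c * s⁻¹ = l j ((1 + τ) * c)
  comm_ne : ∀ j k c d, j.1 ≠ k.1 → Commute (l j c) (l k d)
  comm_two : ∀ j k c d, Commute (l j (2 * c)) (l k d)
  lin1 : ∀ c, l (0, true) (2 * c) * l (1, true) (2 * c) * l (1, false) (2 * c) *
    l (2, true) (2 * c) = 1
  lin2 : ∀ c, l (0, false) (2 * c) * l (1, true) (2 * c) * l (2, true) (2 * c) *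
    l (2, false) (2 * c) = 1

namespace Model

variable {Q : Type*} [Group Q] {C : Type*} [CommRing C] (M : Model Q C)

lemma l_zero (j : J) : M.l j 0 = 1 := by
  have h := M.add j 0 0
  rw [add_zero] at h
  exact left_eq_mul.mp h

lemma l_neg (j : J) (c : C) : M.l j (-c) = (M.l j c)⁻¹ := by
  apply eq_inv_of_mul_eq_one_left
  rw [← M.add, neg_add_cancel, l_zero]

lemma comm_same (j : J) (c d : C) : Commute (M.l j c) (M.l j d) := by
  unfold Commute SemiconjBy
  rw [← M.add, ← M.add, add_comm]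

lemma l_sq (j : J) (c : C) : M.l j c ^ 2 = M.l j (2 * c) := by
  rw [two_mul, M.add, sq]

lemma l_pow (j : J) (c : C) (n : ℕ) : M.l j c ^ n = M.l j (n * c) := by
  induction n with
  | zero => simp [l_zero]
  | succ n ih => rw [pow_succ, ih, ← M.add]; congr 1; push_cast; ring

lemma comm_ex (j k : J) (c d : C) : Commute (M.l j c ^ ex j k) (M.l k d) := by
  unfold ex
  split_ifs with h
  · rw [l_sq]; exact M.comm_two _ _ _ _
  · rw [pow_one]
    by_cases h1 : j.1 = k.1
    · have : j = k := by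
        by_contra h2
        exact h ⟨h1, h2⟩
      subst this
      exact M.comm_same _ _ _
    · exact M.comm_ne _ _ _ _ h1

lemma rel_eq_one (r : RelIdx) : relFun M.s M.t (fun j => M.l j 1) r = 1 := by
  rcases r with _ | j | p | p | p | b
  · exact commutatorElement_eq_one_iff_commute.mpr M.st
  · simp only [relFun]
    rw [M.conj_s, M.conj_t, ← M.add]
    simp
  · exact commutatorElement_eq_one_iff_commute.mpr (M.comm_ex _ _ _ _)
  · simp only [relFun]
    rw [M.conj_t]
    exact commutatorElement_eq_one_iff_commute.mpr (M.comm_ex _ _ _ _)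
  · simp only [relFun]
    rw [← conj_pow, M.conj_t]
    exact commutatorElement_eq_one_iff_commute.mpr (M.comm_ex _ _ _ _)
  · cases b
    · simp only [relFun, l_sq]; exact M.lin2 1
    · simp only [relFun, l_sq]; exact M.lin1 1

lemma exists_hom : ∃ φ : G →* Q, φ gs = M.s ∧ φ gt = M.t ∧ ∀ j, φ (gx j) = M.l j 1 :=
  exists_lift _ _ _ M.rel_eq_one

end Model

end Pool.Agent.Lib.MP_decb17_al
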