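import Pool.Agent.Lib.MP_decb17_al.Affine

/-! `G` is residually finite, torsion-free, and every finite-index subgroup contains a pair of
nontrivial elements satisfying the relations of the Promislow (Hantzsche-Wendt) group. -/

namespace Pool.Agent.Lib.MP_decb17_al

open Polynomial

lemma three_comm {Q : Type*} [Group Q] {z0 z1 z2 a b c : Q} (h1 : Commute z1 a)
    (h2 : Commute z2 a) (h3 : Commute z2 b) :
    z0 * a * (z1 * b) * (z2 * c) = z0 * z1 * z2 * (a * b * c) := by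
  simp only [mul_assoc]
  congr 1
  rw [← h1.left_comm]
  congr 1
  rw [← h3.left_comm, ← h2.left_comm]

lemma det_K {g : G} (hg : g ∈ K) (h : g ≠ 1) : Det g := by
  obtain ⟨l0, l1, l2, rfl⟩ := K_decomp hg
  obtain ⟨z0, m0, hz0, hr0, -, e0⟩ := nf 0 l0
  obtain ⟨z1, m1, hz1, hr1, -, e1⟩ := nf 1 l1
  obtain ⟨z2, m2, hz2, hr2, -, e2⟩ := nf 2 l2
  rw [e0, e1, e2, three_comm (hz1.comm_ev _ _) (hz2.comm_ev _ _) (hz2.comm_ev _ _)] at h ⊢
  have hz := (hz0.mul hz1).mul hz2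
  by_cases a0 : m0 = []
  · by_cases a1 : m1 = []
    · by_cases a2 : m2 = []
      · subst a0 a1 a2
        simp only [ev_nil, mul_one] at h ⊢
        exact hz.det h
      · exact det_word hz _ _ _ (Or.inr (Or.inr ⟨a2, hr2⟩))
    · exact det_word hz _ _ _ (Or.inr (Or.inl ⟨a1, hr1⟩))
  · exact det_word hz _ _ _ (Or.inl ⟨a0, hr0⟩)

theorem residually_finite (g : G) (h : g ≠ 1) : Det g := by
  obtain ⟨η, hη⟩ := exists_eta
  by_cases h1 : η g = 1
  · obtain ⟨n, hn⟩ := hη g h1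
    refine Det.of_conj (c := (gs * gt) ^ n) (det_K hn ?_)
    intro h2
    apply h
    simpa [cj] using h2
  · exact det_of_eta η h1

lemma short_ev (i : Fin 3) {l : List Letter} (h : l.length ≤ 1) :
    ∃ b f, ev i l = rho (i, b) f := by
  rcases l with _ | ⟨p, _ | ⟨q, m⟩⟩
  · exact ⟨true, 0, by rw [ev_nil, rho_zero']⟩
  · exact ⟨p.1, p.2, ev_single _ _⟩
  · simp at h

lemma conj_three {Q : Type*} [Group Q] {a b c u v w : Q} (h1 : Commute a b) (h2 : Commute a c)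
    (h3 : Commute b c) (h4 : Commute a v) (h5 : Commute a w) (h6 : Commute b u)
    (h7 : Commute b w) (h8 : Commute c u) (h9 : Commute c v) :
    a * u * a⁻¹ * (b * v * b⁻¹) * (c * w * c⁻¹) = a * b * c * (u * v * w) * (a * b * c)⁻¹ := by
  have e1 : ∀ x : Q, a * b * c * x * (a * b * c)⁻¹ = a * (b * (c * x * c⁻¹) * b⁻¹) * a⁻¹ := by
    intro x; simp [mul_assoc]
  have fix : ∀ {p q : Q}, Commute p q → p * q * p⁻¹ = q := fun h => by
    rw [h.eq, mul_inv_cancel_right]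
  have e2 : ∀ p x y z : Q, p * (x * y * z) * p⁻¹ = (p * x * p⁻¹) * (p * y * p⁻¹) * (p * z * p⁻¹) := by
    intro p x y z; simp [mul_assoc]
  rw [e1, e2 c, fix h8, fix h9, e2 b, fix h6, fix ((h3.mul_right h7).mul_right h3.inv_right),
    e2 a, fix ((h1.mul_right h4).mul_right h1.inv_right),
    fix ((h2.mul_right h5).mul_right h2.inv_right)]

lemma IsZ.comm {z w : G} (hz : IsZ z) (hw : IsZ w) : Commute z w := by
  obtain ⟨r1, r2, r3, r4, rfl⟩ := hw
  unfold zf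
  refine Commute.mul_right (Commute.mul_right (Commute.mul_right ?_ ?_) ?_) ?_ <;>
    apply hz.comm_rho

lemma torsion_K {g : G} (hg : g ∈ K) {n : ℕ} (h : g ^ (n + 1) = 1) : g = 1 := by
  obtain ⟨l0, l1, l2, rfl⟩ := K_decomp hg
  obtain ⟨c0, z0, m0, hz0, hr0, e0⟩ := cnf 0 _ l0 le_rfl
  obtain ⟨c1, z1, m1, hz1, hr1, e1⟩ := cnf 1 _ l1 le_rfl
  obtain ⟨c2, z2, m2, hz2, hr2, e2⟩ := cnf 2 _ l2 le_rfl
  have cm : ∀ {i i' : Fin 3} {z : G}, i ≠ i' → IsZ z → ∀ c m, Commute (ev i c) (z * ev i' m) :=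
    fun h hz c m => (hz.comm_ev _ _).symm.mul_right (ev_ev_comm h _ _)
  rw [e0, e1, e2, conj_three (ev_ev_comm (by decide) _ _) (ev_ev_comm (by decide) _ _)
    (ev_ev_comm (by decide) _ _) (cm (by decide) hz1 _ _) (cm (by decide) hz2 _ _)
    (cm (by decide) hz0 _ _) (cm (by decide) hz2 _ _) (cm (by decide) hz0 _ _)
    (cm (by decide) hz1 _ _),
    three_comm (hz1.comm_ev _ _) (hz2.comm_ev _ _) (hz2.comm_ev _ _)] at h ⊢
  have hz := (hz0.mul hz1).mul hz2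
  generalize z0 * z1 * z2 = z at h hz ⊢
  rw [conj_pow, conj_eq_one_iff] at h
  rw [conj_eq_one_iff]
  have c01 : Commute (ev 0 m0) (ev 1 m1) := ev_ev_comm (by decide) _ _
  have c02 : Commute (ev 0 m0) (ev 2 m2) := ev_ev_comm (by decide) _ _
  have c12 : Commute (ev 1 m1) (ev 2 m2) := ev_ev_comm (by decide) _ _
  have h' := h
  rw [(((hz.comm_ev _ _).mul_right (hz.comm_ev _ _)).mul_right (hz.comm_ev _ _)).mul_pow,
    (c02.mul_left c12).mul_pow, c01.mul_pow, ev_pow, ev_pow, ev_pow] at h'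
  have ne : ∀ {m : List Letter}, m ≠ [] → (List.replicate (n + 1) m).flatten ≠ [] := by
    intro m hm
    rw [List.replicate_succ, List.flatten_cons]
    exact List.append_ne_nil_of_left_ne_nil hm _
  rcases hr0 with a0 | a0
  · rcases hr1 with a1 | a1
    · rcases hr2 with a2 | a2
      · obtain ⟨b0, f0, q0⟩ := short_ev 0 a0
        obtain ⟨b1, f1, q1⟩ := short_ev 1 a1
        obtain ⟨b2, f2, q2⟩ := short_ev 2 a2
        rw [q0, q1, q2] at h ⊢
        exact short_torsion hz _ _ _ _ _ _ (Nat.succ_ne_zero n) h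
      · exact absurd h' (det_word (hz.pow _) _ _ _
          (Or.inr (Or.inr ⟨ne a2.1, red_flatten a2.1 a2.2 n⟩))).ne_one
    · exact absurd h' (det_word (hz.pow _) _ _ _
        (Or.inr (Or.inl ⟨ne a1.1, red_flatten a1.1 a1.2 n⟩))).ne_one
  · exact absurd h' (det_word (hz.pow _) _ _ _
      (Or.inl ⟨ne a0.1, red_flatten a0.1 a0.2 n⟩)).ne_one

theorem torsion_free (g : G) (n : ℕ) (h : g ^ (n + 1) = 1) : g = 1 := by
  obtain ⟨η, hη⟩ := exists_eta
  have h1 : η g = 1 := by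
    have h2 : η g ^ (n + 1) = 1 := by rw [← map_pow, h, map_one]
    have h3 : (n + 1) • (η g).toAdd = 0 := by rw [← toAdd_pow, h2, toAdd_one]
    exact toAdd_eq_zero.mp ((smul_eq_zero.mp h3).resolve_left (Nat.succ_ne_zero n))
  obtain ⟨k, hk⟩ := hη g h1
  have h2 : cj (gs * gt) k g = 1 := torsion_K (n := n) hk (by rw [← cj_pow, h, cj_unit])
  simpa [cj] using h2

lemma not_two_dvd {m n : ℕ} (h : m ≠ n) : ¬ (2 : ℤ[X]) ∣ X ^ m - X ^ n := by
  have : (2 : ℤ[X]) = C 2 := rfl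
  rw [this, C_dvd_iff_dvd_coeff]
  intro h1
  have h2 := h1 m
  simp [coeff_X_pow, h] at h2

lemma exists_odd (N : Subgroup G) [N.Normal] [N.FiniteIndex] :
    ∃ d : ℤ[X], ¬ (2 : ℤ[X]) ∣ d ∧ ∀ j, rho j d ∈ N := by
  obtain ⟨m, n, hmn, h⟩ := Finite.exists_ne_map_eq_of_infinite
    (fun (n : ℕ) (j : J) => (QuotientGroup.mk (rho j (X ^ n)) : G ⧸ N))
  refine ⟨X ^ n - X ^ m, not_two_dvd hmn.symm, fun j => ?_⟩
  have h1 := QuotientGroup.eq.mp (congrFun h j)
  rwa [← rho_neg', ← rho_add, neg_add_eq_sub] at h1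

lemma dihedral_rel {Q : Type*} [Group Q] {a b : Q} (ha : Commute (a ^ 2) b) :
    a * ((a * b) ^ 2 * (a ^ 2 * b ^ 2)⁻¹) * a⁻¹ * ((a * b) ^ 2 * (a ^ 2 * b ^ 2)⁻¹) = 1 := by
  have e : (a * b) ^ 2 * (a ^ 2 * b ^ 2)⁻¹ = a * b * a⁻¹ * b⁻¹ := by
    have h1 : (a ^ 2 * b ^ 2)⁻¹ = (b⁻¹ * (a ^ 2)⁻¹) * b⁻¹ := by
      rw [mul_inv_rev, mul_assoc, ha.inv_inv.eq, sq b]; simp [mul_assoc]
    rw [h1]
    simp [sq, mul_assoc]
  rw [e]
  have h2 : a * (a * b * a⁻¹ * b⁻¹) * a⁻¹ * (a * b * a⁻¹ * b⁻¹) =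
      a ^ 2 * b * (a ^ 2)⁻¹ * b⁻¹ := by
    simp [sq, mul_assoc]
  rw [h2, ha.eq]
  simp

/-- The abstract computation: `u` commutes with `a, b`, `u ^ 2 * (a ^ 2 * b ^ 2) = 1`, and `v`
commutes with `a, b`. -/
lemma promislow_rel {Q : Type*} [Group Q] {a b u v : Q} (ha : Commute (a ^ 2) b)
    (hua : Commute u a) (hub : Commute u b)
    (hva : Commute v a) (hvb : Commute v b) (h : u ^ 2 * (a ^ 2 * b ^ 2) = 1) :
    (v * a) * (u * (a * b)) ^ 2 * (v * a)⁻¹ = ((u * (a * b)) ^ 2)⁻¹ := by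
  have h1 : u ^ 2 = (a ^ 2 * b ^ 2)⁻¹ := eq_inv_of_mul_eq_one_left h
  have h2 : (u * (a * b)) ^ 2 = (a * b) ^ 2 * (a ^ 2 * b ^ 2)⁻¹ := by
    rw [(hua.mul_right hub).mul_pow, ((hua.mul_right hub).pow_pow 2 2).eq, h1]
  rw [h2]
  have h3 := dihedral_rel ha
  have h4 : Commute v ((a * b) ^ 2 * (a ^ 2 * b ^ 2)⁻¹) :=
    ((hva.mul_right hvb).pow_right 2).mul_right
      ((hva.pow_right 2).mul_right (hvb.pow_right 2)).inv_right
  generalize (a * b) ^ 2 * (a ^ 2 * b ^ 2)⁻¹ = x at h3 h4 ⊢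
  apply eq_inv_of_mul_eq_one_left
  rw [← h3]
  congr 1
  have h5 : Commute v (a * x * a⁻¹) := (hva.mul_right h4).mul_right hva.inv_right
  calc v * a * x * (v * a)⁻¹ = v * (a * x * a⁻¹) * v⁻¹ := by simp [mul_assoc]
    _ = a * x * a⁻¹ := by rw [h5.eq, mul_inv_cancel_right]

theorem exists_pair (H : Subgroup G) [H.FiniteIndex] :
    ∃ α ∈ H, ∃ β ∈ H, α ≠ 1 ∧ β ≠ 1 ∧ β * α ^ 2 * β⁻¹ = (α ^ 2)⁻¹ ∧
      α * β ^ 2 * α⁻¹ = (β ^ 2)⁻¹ := by
  obtain ⟨d, hd, hN⟩ := exists_odd H.normalCore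
  have hH : ∀ j, rho j d ∈ H := fun j => H.normalCore_le (hN j)
  have cn : ∀ (i i' : Fin 3) (b b' : Bool), i ≠ i' → Commute (rho (i, b) d) (rho (i', b') d) :=
    fun i i' b b' h => GM.comm_ne (i, b) (i', b') d d h
  have sq' : ∀ j, rho j d ^ 2 = rho j (2 * d) := fun j => GM.l_sq j d
  have c2 : ∀ j k, Commute (rho j d ^ 2) (rho k d) := fun j k => by
    rw [sq']; exact rho_comm_two _ _ _ _
  have l1 : rho (0, true) d ^ 2 * rho (1, true) d ^ 2 * rho (1, false) d ^ 2 *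
      rho (2, true) d ^ 2 = 1 := by simp only [sq']; exact GM.lin1 d
  have l2 : rho (0, false) d ^ 2 * rho (1, true) d ^ 2 * rho (2, true) d ^ 2 *
      rho (2, false) d ^ 2 = 1 := by simp only [sq']; exact GM.lin2 d
  have red1 : ∀ b, Red [(b, d)] := fun b => ⟨by simpa using hd, by simp⟩
  refine ⟨rho (0, true) d * (rho (1, true) d * rho (1, false) d) * rho (2, true) d,
    H.mul_mem (H.mul_mem (hH _) (H.mul_mem (hH _) (hH _))) (hH _),
    rho (0, false) d * rho (1, true) d * (rho (2, true) d * rho (2, false) d),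
    H.mul_mem (H.mul_mem (hH _) (hH _)) (H.mul_mem (hH _) (hH _)), ?_, ?_, ?_, ?_⟩
  · have := (det_word IsZ.one [(true, d)] [(true, d), (false, d)] [(true, d)]
      (Or.inl ⟨by simp, red1 _⟩)).ne_one
    simpa only [ev_cons, ev_nil, mul_one, one_mul] using this
  · have := (det_word IsZ.one [(false, d)] [(true, d)] [(true, d), (false, d)]
      (Or.inl ⟨by simp, red1 _⟩)).ne_one
    simpa only [ev_cons, ev_nil, mul_one, one_mul] using this
  · have e1 : rho (0, true) d * (rho (1, true) d * rho (1, false) d) * rho (2, true) d =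
        (rho (0, true) d * rho (2, true) d) * (rho (1, true) d * rho (1, false) d) := by
      rw [mul_assoc, mul_assoc (rho (0, true) d),
        ((cn 1 2 _ _ (by decide)).mul_left (cn 1 2 _ _ (by decide))).eq]
    have e2 : rho (0, false) d * rho (1, true) d * (rho (2, true) d * rho (2, false) d) =
        (rho (0, false) d * (rho (2, true) d * rho (2, false) d)) * rho (1, true) d := by
      rw [mul_assoc, mul_assoc (rho (0, false) d),
        ((cn 1 2 _ _ (by decide)).mul_right (cn 1 2 _ _ (by decide))).eq]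
    rw [e1, e2]
    refine promislow_rel (c2 _ _) ?_ ?_ ?_ ?_ ?_
    · exact (cn _ _ _ _ (by decide)).mul_left (cn _ _ _ _ (by decide))
    · exact (cn _ _ _ _ (by decide)).mul_left (cn _ _ _ _ (by decide))
    · exact (cn _ _ _ _ (by decide)).mul_left
        ((cn _ _ _ _ (by decide)).mul_left (cn _ _ _ _ (by decide)))
    · exact (cn _ _ _ _ (by decide)).mul_left
        ((cn _ _ _ _ (by decide)).mul_left (cn _ _ _ _ (by decide)))
    · rw [(cn 0 2 _ _ (by decide)).mul_pow, ← l1, mul_assoc, mul_assoc, mul_assoc,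
        (((c2 (2, true) (1, true)).pow_right 2).mul_right
          ((c2 (2, true) (1, false)).pow_right 2)).eq, mul_assoc]
  · refine promislow_rel (c2 _ _) ?_ ?_ ?_ ?_ ?_
    · exact (cn _ _ _ _ (by decide)).mul_left (cn _ _ _ _ (by decide))
    · exact (cn _ _ _ _ (by decide)).mul_left (cn _ _ _ _ (by decide))
    · exact (cn _ _ _ _ (by decide)).mul_left
        ((cn _ _ _ _ (by decide)).mul_left (cn _ _ _ _ (by decide)))
    · exact (cn _ _ _ _ (by decide)).mul_left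
        ((cn _ _ _ _ (by decide)).mul_left (cn _ _ _ _ (by decide)))
    · rw [(cn 0 1 _ _ (by decide)).mul_pow, ← l2]
      simp only [mul_assoc]

/-- In a torsion-free group, a nontrivial Promislow pair gives a finite set (the powers
`α ^ i`, `β ^ i` with `|i| ≤ 2`) without extremal points. -/
lemma ravel_half {Q : Type*} [Group Q] (htf : ∀ (g : Q) (n : ℕ), g ^ (n + 1) = 1 → g = 1)
    (H : Subgroup Q) {α β : Q} (hα : α ∈ H) (hβ : β ∈ H) (hα1 : α ≠ 1)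
    (h : β * α ^ 2 * β⁻¹ = (α ^ 2)⁻¹) (A : Set Q) (h1 : (1 : Q) ∈ A) (ha : α ∈ A)
    (ha' : α⁻¹ ∈ A) (ha2 : α ^ 2 ∈ A) (ha2' : (α ^ 2)⁻¹ ∈ A) (hb : β ∈ A) (hb' : β⁻¹ ∈ A)
    (a : Q) (haa : a = 1 ∨ a = α ∨ a = α⁻¹ ∨ a = α ^ 2 ∨ a = (α ^ 2)⁻¹) :
    ∃ g ∈ H, g ≠ 1 ∧ g * a ∈ A ∧ g⁻¹ * a ∈ A := by
  have h4 : α ^ 2 ≠ (α ^ 2)⁻¹ := by
    intro h'
    apply hα1
    apply htf α 3
    calc α ^ (3 + 1) = α ^ 2 * α ^ 2 := by rw [← pow_add]
      _ = 1 := by nth_rewrite 1 [h']; simp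
  have hx : α ^ 2 ∈ H := H.pow_mem hα 2
  rcases haa with rfl | rfl | rfl | rfl | rfl
  · exact ⟨α, hα, hα1, by simpa using ha, by simpa using ha'⟩
  · exact ⟨a, hα, hα1, by rwa [← sq], by simpa using h1⟩
  · exact ⟨α, hα, hα1, by simpa using h1, by rwa [← mul_inv_rev, ← sq]⟩
  · generalize α ^ 2 = x at *
    refine ⟨β * x⁻¹, H.mul_mem hβ (H.inv_mem hx), ?_, by simpa using hb, ?_⟩
    · intro h'
      have : β = x := eq_of_mul_inv_eq_one h'
      subst this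
      exact h4 (by simpa using h)
    · have e : (β * x⁻¹)⁻¹ * x = β⁻¹ := by
        calc (β * x⁻¹)⁻¹ * x = β⁻¹ * (β * x * β⁻¹) * x := by simp [mul_assoc]
          _ = β⁻¹ := by rw [h]; simp
      rwa [e]
  · generalize α ^ 2 = x at *
    refine ⟨β * x, H.mul_mem hβ hx, ?_, by simpa using hb, ?_⟩
    · intro h'
      have : β = x⁻¹ := eq_inv_of_mul_eq_one_left h'
      subst this
      exact h4 (by simpa using h)
    · have e : (β * x)⁻¹ * x⁻¹ = β⁻¹ := by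
        calc (β * x)⁻¹ * x⁻¹ = β⁻¹ * (β * x * β⁻¹)⁻¹ * x⁻¹ := by simp [mul_assoc]
          _ = β⁻¹ := by rw [h]; simp
      rwa [e]

theorem not_diffuse (H : Subgroup G) [H.FiniteIndex] :
    ∃ A : Finset G, (∀ x ∈ A, x ∈ H) ∧ 2 ≤ A.card ∧
      ∀ a ∈ A, ∃ g ∈ H, g ≠ 1 ∧ g * a ∈ A ∧ g⁻¹ * a ∈ A := by
  classical
  obtain ⟨α, hα, β, hβ, hα1, hβ1, r1, r2⟩ := exists_pair H
  let A : Finset G := {1, α, α⁻¹, α ^ 2, (α ^ 2)⁻¹, β, β⁻¹, β ^ 2, (β ^ 2)⁻¹}
  refine ⟨A, ?_, ?_, ?_⟩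
  · intro x hx
    simp only [A, Finset.mem_insert, Finset.mem_singleton] at hx
    rcases hx with rfl | rfl | rfl | rfl | rfl | rfl | rfl | rfl | rfl
    · exact H.one_mem
    · exact hα
    · exact H.inv_mem hα
    · exact H.pow_mem hα 2
    · exact H.inv_mem (H.pow_mem hα 2)
    · exact hβ
    · exact H.inv_mem hβ
    · exact H.pow_mem hβ 2
    · exact H.inv_mem (H.pow_mem hβ 2)
  · exact Finset.one_lt_card.mpr ⟨α, by simp [A], 1, by simp [A], hα1⟩
  · intro a ha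
    have ha' : (a = 1 ∨ a = α ∨ a = α⁻¹ ∨ a = α ^ 2 ∨ a = (α ^ 2)⁻¹) ∨
        (a = 1 ∨ a = β ∨ a = β⁻¹ ∨ a = β ^ 2 ∨ a = (β ^ 2)⁻¹) := by
      simp only [A, Finset.mem_insert, Finset.mem_singleton] at ha
      tauto
    rcases ha' with h | h
    · exact ravel_half torsion_free H hα hβ hα1 r1 (A : Set G) (by simp [A]) (by simp [A])
        (by simp [A]) (by simp [A]) (by simp [A]) (by simp [A]) (by simp [A]) a h
    · exact ravel_half torsion_free H hβ hα hβ1 r2 (A : Set G) (by simp [A]) (by simp [A])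
        (by simp [A]) (by simp [A]) (by simp [A]) (by simp [A]) (by simp [A]) a h

theorem finitely_presented : ∃ (n : ℕ) (R : Finset (FreeGroup (Fin n))),
    Nonempty (G ≃* PresentedGroup (R : Set (FreeGroup (Fin n)))) := by
  let e := Fintype.equivFin Gen
  have hf : (FreeGroup.freeGroupCongr e '' rels).Finite := rels_finite.image _
  refine ⟨_, hf.toFinset, ?_⟩
  rw [hf.coe_toFinset]
  exact ⟨PresentedGroup.equivPresentedGroup rels e⟩

end Pool.Agent.Lib.MP_decb17_al
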