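import Pool.Agent.Lib.MP_decb17_al.Words

/-! Finite quotients of `G`: the unipotent models (one per factor). -/

namespace Pool.Agent.Lib.MP_decb17_al

open Polynomial

/-- `g` survives in a finite quotient. -/
def Det (g : G) : Prop := ∃ N : Subgroup G, N.Normal ∧ N.FiniteIndex ∧ g ∉ N

lemma det_of_hom {Q : Type*} [Group Q] [Finite Q] (φ : G →* Q) {g : G} (h : φ g ≠ 1) : Det g :=
  ⟨φ.ker, inferInstance, Subgroup.finiteIndex_ker φ, by simpa using h⟩

lemma Det.ne_one {g : G} (h : Det g) : g ≠ 1 := by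
  rintro rfl
  obtain ⟨N, _, _, h⟩ := h
  exact h N.one_mem

lemma Det.of_conj {g c : G} (h : Det (c * g * c⁻¹)) : Det g := by
  obtain ⟨N, h1, h2, h3⟩ := h
  exact ⟨N, h1, h2, fun hg => h3 (h1.conj_mem g hg c)⟩

section unip
variable {F : Type} [Field F]

/-- Elementary unipotent transformations, fibrewise over the first coordinate. -/
def U (b : Bool) (c : F) : Equiv.Perm (F × F × F) where
  toFun w := if b then (w.1, w.2.1 + c * w.1 * w.2.2, w.2.2)
    else (w.1, w.2.1, w.2.2 + c * w.1 * w.2.1)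
  invFun w := if b then (w.1, w.2.1 - c * w.1 * w.2.2, w.2.2)
    else (w.1, w.2.1, w.2.2 - c * w.1 * w.2.1)
  left_inv w := by cases b <;> simp
  right_inv w := by cases b <;> simp

lemma U_apply (b : Bool) (c : F) (w : F × F × F) :
    U b c w = if b then (w.1, w.2.1 + c * w.1 * w.2.2, w.2.2)
      else (w.1, w.2.1, w.2.2 + c * w.1 * w.2.1) := rfl

/-- Rescaling of the first coordinate. -/
def S (h : F) (hh : h ≠ 0) : Equiv.Perm (F × F × F) where
  toFun w := (h⁻¹ * w.1, w.2)
  invFun w := (h * w.1, w.2)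
  left_inv w := by simp [hh]
  right_inv w := by simp [hh]

lemma S_apply (h : F) (hh : h ≠ 0) (w : F × F × F) : S h hh w = (h⁻¹ * w.1, w.2) := rfl

lemma U_add (b : Bool) (c d : F) : U b (c + d) = U b c * U b d := by
  ext1 w
  cases b <;> simp [U_apply] <;> ring

lemma U_zero (b : Bool) : U b (0 : F) = 1 := by
  ext1 w
  cases b <;> simp [U_apply]

lemma S_U (h : F) (hh : h ≠ 0) (b : Bool) (c : F) :
    S h hh * U b c * (S h hh)⁻¹ = U b (h * c) := by
  rw [mul_inv_eq_iff_eq_mul]
  ext1 w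
  cases b <;> simp [U_apply, S_apply] <;> left <;> field_simp

lemma S_comm (h k : F) (hh : h ≠ 0) (hk : k ≠ 0) : Commute (S h hh) (S k hk) := by
  unfold Commute SemiconjBy
  ext1 w
  simp [S_apply, mul_left_comm]

/-- The unipotent model attached to the factor `i`. -/
def uModel (h2 : (2 : F) = 0) (i : Fin 3) (τ : F) (h0 : τ ≠ 0) (h1 : 1 + τ ≠ 0) :
    Model (Equiv.Perm (F × F × F)) F where
  τ := τ
  s := S (1 + τ) h1
  t := S τ h0
  l j c := if j.1 = i then U j.2 c else 1
  add j c d := by split_ifs <;> simp [U_add]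
  st := S_comm _ _ _ _
  conj_t j c := by split_ifs <;> simp [S_U]
  conj_s j c := by split_ifs <;> simp [S_U]
  comm_ne j k c d h := by
    split_ifs with a b
    · exact absurd (a.trans b.symm) h
    all_goals simp
  comm_two j k c d := by simp [h2, U_zero]
  lin1 c := by simp [h2, U_zero]
  lin2 c := by simp [h2, U_zero]

/-- The pair of polynomials obtained by letting a word act on `(1, 1)`. -/
noncomputable def pp : List (Bool × F) → F[X] × F[X]
  | [] => (1, 1)
  | p :: l => if p.1 then ((pp l).1 + C p.2 * X * (pp l).2, (pp l).2)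
      else ((pp l).1, (pp l).2 + C p.2 * X * (pp l).1)

lemma pp_eval (l : List (Bool × F)) (y : F) :
    (l.map fun p => U p.1 p.2).prod (y, 1, 1) = (y, (pp l).1.eval y, (pp l).2.eval y) := by
  induction l with
  | nil => simp [pp]
  | cons p l ih =>
    rw [List.map_cons, List.prod_cons, Equiv.Perm.mul_apply, ih]
    obtain ⟨b, c⟩ := p
    cases b <;> simp [pp, U_apply]

lemma deg_step {p q : F[X]} {c : F} {n : ℕ} (hc : c ≠ 0) (hq : q ≠ 0) (hqn : q.natDegree = n)
    (hp : p.natDegree ≤ n) :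
    p + C c * X * q ≠ 0 ∧ (p + C c * X * q).natDegree = n + 1 := by
  have h1 : (C c * X * q).natDegree = n + 1 := by
    rw [mul_assoc, natDegree_C_mul hc, natDegree_X_mul hq, hqn]
  have h2 : (p + C c * X * q).natDegree = n + 1 := by
    rw [natDegree_add_eq_right_of_natDegree_lt (by omega), h1]
  refine ⟨?_, h2⟩
  intro h
  rw [h] at h2
  simp at h2

/-- The ping-pong invariant. -/
def Ready (b : Bool) (n : ℕ) (w : F[X] × F[X]) : Prop :=
  if b then w.2 ≠ 0 ∧ w.2.natDegree = n ∧ w.1.natDegree ≤ n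
  else w.1 ≠ 0 ∧ w.1.natDegree = n ∧ w.2.natDegree ≤ n

lemma ready_pp (l : List (Bool × F)) (h1 : ∀ p ∈ l, p.2 ≠ 0)
    (h2 : l.IsChain (fun p q => p.1 ≠ q.1)) (b : Bool) (hb : ∀ p ∈ l.head?, p.1 ≠ b) :
    Ready b l.length (pp l) := by
  induction l generalizing b with
  | nil => cases b <;> simp [Ready, pp]
  | cons p l ih =>
    rw [List.isChain_cons] at h2
    have h3 := ih (fun q hq => h1 q (List.mem_cons_of_mem _ hq)) h2.2 p.1
      (fun q hq => (h2.1 q hq).symm)
    have hc := h1 p List.mem_cons_self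
    have hb' := hb p (by simp)
    obtain ⟨a, c⟩ := p
    cases a
    · have : b = true := by simpa using hb'
      subst this
      simp only [Ready, Bool.false_eq_true, if_false] at h3
      have := deg_step hc h3.1 h3.2.1 h3.2.2
      simp only [Ready, pp, if_true, Bool.false_eq_true, if_false, List.length_cons]
      exact ⟨this.1, this.2, by omega⟩
    · have : b = false := by simpa using hb'
      subst this
      simp only [Ready, if_true] at h3
      have := deg_step hc h3.1 h3.2.1 h3.2.2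
      simp only [Ready, pp, if_true, Bool.false_eq_true, if_false, List.length_cons]
      exact ⟨this.1, this.2, by omega⟩

lemma exists_eval_ne [Finite F] {f : F[X]} (hf : f ≠ 0) (h : f.natDegree < Nat.card F) :
    ∃ y, f.eval y ≠ 0 := by
  have := Fintype.ofFinite F
  by_contra hcon
  push Not at hcon
  exact hf (eq_zero_of_natDegree_lt_card_of_eval_eq_zero f Function.injective_id hcon
    (by rwa [← Nat.card_eq_fintype_card]))

lemma exists_eval_ne_one [Finite F] {f : F[X]} {n : ℕ} (hn : f.natDegree = n + 1)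
    (h : n + 1 < Nat.card F) : ∃ y, f.eval y ≠ 1 := by
  have h1 : (f - 1).natDegree = n + 1 := by
    rw [← hn, ← C_1, natDegree_sub_C]
  have h2 : f - 1 ≠ 0 := by
    intro h0
    rw [h0] at h1
    simp at h1
  obtain ⟨y, hy⟩ := exists_eval_ne h2 (by omega)
  exact ⟨y, fun h' => hy (by simp [h'])⟩

lemma prod_U_ne_one [Finite F] (l : List (Bool × F)) (hne : l ≠ []) (h1 : ∀ p ∈ l, p.2 ≠ 0)
    (h2 : l.IsChain (fun p q => p.1 ≠ q.1)) (hc : l.length < Nat.card F) :
    (l.map fun p => U p.1 p.2).prod ≠ 1 := by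
  rcases l with _ | ⟨p, l⟩
  · exact absurd rfl hne
  have h3 := ready_pp (p :: l) h1 h2 (!p.1) (by simp)
  intro h
  have h4 : ∀ y, (pp (p :: l)).1.eval y = 1 ∧ (pp (p :: l)).2.eval y = 1 := by
    intro y
    have := pp_eval (p :: l) y
    rw [h] at this
    simp only [Equiv.Perm.one_apply, Prod.mk.injEq, true_and] at this
    exact ⟨this.1.symm, this.2.symm⟩
  unfold Ready at h3
  split_ifs at h3
  · obtain ⟨y, hy⟩ := exists_eval_ne_one h3.2.1 hc
    exact hy (h4 y).2
  · obtain ⟨y, hy⟩ := exists_eval_ne_one h3.2.1 hc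
    exact hy (h4 y).1

lemma map_ne_zero_of_odd [CharP F 2] {f : ℤ[X]} (hf : ¬ (2 : ℤ[X]) ∣ f) :
    f.map (algebraMap ℤ F) ≠ 0 := by
  intro h
  apply hf
  have : (2 : ℤ[X]) = C 2 := rfl
  rw [this, C_dvd_iff_dvd_coeff]
  intro n
  have h1 := congrArg (fun p => coeff p n) h
  simp only [coeff_map, coeff_zero, algebraMap_int_eq, eq_intCast] at h1
  exact (CharP.intCast_eq_zero_iff F 2 _).mp h1

end unip

lemma exists_field (l : List Letter) (hl : ∀ p ∈ l, ¬ (2 : ℤ[X]) ∣ p.2) :
    ∃ (k : ℕ) (τ : GaloisField 2 k), τ ≠ 0 ∧ 1 + τ ≠ 0 ∧ (∀ p ∈ l, aeval τ p.2 ≠ 0) ∧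
      l.length < Nat.card (GaloisField 2 k) := by
  let P : ℤ[X] := X * (1 + X) * (l.map fun p => p.2).prod
  let k := P.natDegree + l.length + 1
  have hk : Nat.card (GaloisField 2 k) = 2 ^ k := GaloisField.card 2 k (by omega)
  have hk2 : k < 2 ^ k := Nat.lt_two_pow_self
  have hP : P.map (algebraMap ℤ (GaloisField 2 k)) ≠ 0 := by
    simp only [P, Polynomial.map_mul, map_X, Polynomial.map_add, Polynomial.map_one,
      Polynomial.map_list_prod]
    refine mul_ne_zero (mul_ne_zero X_ne_zero ?_) ?_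
    · rw [add_comm, ← C_1]; exact X_add_C_ne_zero 1
    · apply List.prod_ne_zero
      intro h
      simp only [List.map_map, List.mem_map, Function.comp_apply] at h
      obtain ⟨p, hp, h⟩ := h
      exact map_ne_zero_of_odd (hl p hp) h
  obtain ⟨τ, hτ⟩ := exists_eval_ne hP (by
    have := natDegree_map_le (f := algebraMap ℤ (GaloisField 2 k)) (p := P)
    omega)
  rw [eval_map_algebraMap] at hτ
  simp only [P, map_mul, aeval_X, map_add, map_one, map_list_prod, ne_eq, mul_eq_zero, not_or,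
    List.prod_eq_zero_iff, List.map_map, List.mem_map, Function.comp_apply, not_exists,
    not_and] at hτ
  exact ⟨k, τ, hτ.1.1, hτ.1.2, hτ.2, by omega⟩

/-- A nonempty reduced word of the factor `i` survives in a finite quotient which kills the
central elements and the other two factors. -/
lemma detect (i : Fin 3) (l : List Letter) (hne : l ≠ []) (hl : Red l) :
    ∃ (k : ℕ) (φ : G →* Equiv.Perm (GaloisField 2 k × GaloisField 2 k × GaloisField 2 k)),
      φ (ev i l) ≠ 1 ∧ (∀ z, IsZ z → φ z = 1) ∧ ∀ i' m, i' ≠ i → φ (ev i' m) = 1 := by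
  obtain ⟨k, τ, h0, h1, h2, h3⟩ := exists_field l hl.1
  have two : (2 : GaloisField 2 k) = 0 := CharP.ofNat_eq_zero _ 2
  obtain ⟨φ, -, -, hφ⟩ := (uModel two i τ h0 h1).exists_hom'
  refine ⟨k, φ, ?_, ?_, ?_⟩
  · have e : φ (ev i l) =
        ((l.map fun p => (p.1, aeval τ p.2)).map fun p => U p.1 p.2).prod := by
      simp only [ev, map_list_prod, List.map_map]
      congr 1
      apply List.map_congr_left
      intro p _
      simp [hφ, uModel]
    rw [e]
    apply prod_U_ne_one
    · simpa using hne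
    · intro p hp
      obtain ⟨q, hq, rfl⟩ := List.mem_map.mp hp
      exact h2 q hq
    · rw [List.isChain_map]
      exact hl.2
    · simpa using h3
  · rintro z ⟨r1, r2, r3, r4, rfl⟩
    have e : ∀ f : ℤ[X], aeval τ (2 * f) = 0 := by
      intro f
      rw [map_mul, map_ofNat, two, zero_mul]
    simp [zf, hφ, uModel, -map_mul, MonoidHom.map_mul, e, U_zero]
  · intro i' m hi
    induction m with
    | nil => simp [ev_nil]
    | cons p m ih => simp [ev_cons, ih, hφ, uModel, hi]

lemma det_word {z : G} (hz : IsZ z) (l0 l1 l2 : List Letter)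
    (h : (l0 ≠ [] ∧ Red l0) ∨ (l1 ≠ [] ∧ Red l1) ∨ (l2 ≠ [] ∧ Red l2)) :
    Det (z * (ev 0 l0 * ev 1 l1 * ev 2 l2)) := by
  rcases h with h | h | h
  · obtain ⟨k, φ, a, b, c⟩ := detect 0 l0 h.1 h.2
    apply det_of_hom φ
    simpa [b z hz, c 1 l1 (by decide), c 2 l2 (by decide)] using a
  · obtain ⟨k, φ, a, b, c⟩ := detect 1 l1 h.1 h.2
    apply det_of_hom φ
    simpa [b z hz, c 0 l0 (by decide), c 2 l2 (by decide)] using a
  · obtain ⟨k, φ, a, b, c⟩ := detect 2 l2 h.1 h.2
    apply det_of_hom φ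
    simpa [b z hz, c 0 l0 (by decide), c 1 l1 (by decide)] using a

end Pool.Agent.Lib.MP_decb17_al
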