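import Pool.Agent.Lib.MP_decb17_al.Baumslag

/-! Normal forms for words in the letters `rho j f`. -/

namespace Pool.Agent.Lib.MP_decb17_al

open Polynomial

/-- A letter of the `i`-th factor. -/
abbrev Letter := Bool × ℤ[X]

/-- The value of a word of the `i`-th factor. -/
noncomputable def ev (i : Fin 3) (l : List Letter) : G :=
  (l.map fun p => rho (i, p.1) p.2).prod

lemma ev_nil (i : Fin 3) : ev i [] = 1 := rfl

lemma ev_cons (i : Fin 3) (p : Letter) (l : List Letter) :
    ev i (p :: l) = rho (i, p.1) p.2 * ev i l := by simp [ev]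

lemma ev_append (i : Fin 3) (l m : List Letter) : ev i (l ++ m) = ev i l * ev i m := by
  simp [ev]

lemma ev_single (i : Fin 3) (p : Letter) : ev i [p] = rho (i, p.1) p.2 := by simp [ev]

lemma ev_pow (i : Fin 3) (l : List Letter) (n : ℕ) :
    ev i l ^ n = ev i (List.replicate n l).flatten := by
  induction n with
  | zero => simp [ev_nil]
  | succ n ih => rw [List.replicate_succ, List.flatten_cons, ev_append, ← ih, pow_succ']

lemma commute_ev {g : G} {i : Fin 3} (h : ∀ b f, Commute g (rho (i, b) f)) (l : List Letter) :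
    Commute g (ev i l) := by
  induction l with
  | nil => exact Commute.one_right g
  | cons p l ih => rw [ev_cons]; exact (h _ _).mul_right ih

lemma rho_ev_comm {i i' : Fin 3} (h : i ≠ i') (b : Bool) (f : ℤ[X]) (l : List Letter) :
    Commute (rho (i, b) f) (ev i' l) :=
  commute_ev (fun b' f' => GM.comm_ne (i, b) (i', b') f f' h) l

lemma ev_ev_comm {i i' : Fin 3} (h : i ≠ i') (l m : List Letter) :
    Commute (ev i l) (ev i' m) :=
  (commute_ev (fun b f => (rho_ev_comm h b f m).symm) l).symm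

/-- The central elements, in normal form. -/
noncomputable def zf (r1 r2 r3 r4 : ℤ[X]) : G :=
  rho (1, true) (2 * r1) * rho (1, false) (2 * r2) * rho (2, true) (2 * r3) *
    rho (2, false) (2 * r4)

def IsZ (z : G) : Prop := ∃ r1 r2 r3 r4, z = zf r1 r2 r3 r4

lemma rho_zero' (j : J) : rho j 0 = 1 := rho_zero (rho_add j)

lemma rho_neg' (j : J) (f : ℤ[X]) : rho j (-f) = (rho j f)⁻¹ := rho_neg (rho_add j) f

lemma zf_zero : zf 0 0 0 0 = 1 := by simp [zf, rho_zero']

lemma zf_add (r1 r2 r3 r4 q1 q2 q3 q4 : ℤ[X]) :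
    zf (r1 + q1) (r2 + q2) (r3 + q3) (r4 + q4) = zf r1 r2 r3 r4 * zf q1 q2 q3 q4 := by
  simp only [zf, rho_two_add]
  apply four_mul_comm <;> apply rho_comm_two

lemma IsZ.one : IsZ 1 := ⟨0, 0, 0, 0, zf_zero.symm⟩

lemma IsZ.mul {z w : G} (hz : IsZ z) (hw : IsZ w) : IsZ (z * w) := by
  obtain ⟨r1, r2, r3, r4, rfl⟩ := hz
  obtain ⟨q1, q2, q3, q4, rfl⟩ := hw
  exact ⟨_, _, _, _, (zf_add ..).symm⟩

lemma IsZ.pow {z : G} (hz : IsZ z) (n : ℕ) : IsZ (z ^ n) := by
  induction n with
  | zero => rw [pow_zero]; exact IsZ.one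
  | succ n ih => rw [pow_succ]; exact ih.mul hz

lemma IsZ.comm_rho {z : G} (hz : IsZ z) (k : J) (g : ℤ[X]) : Commute z (rho k g) := by
  obtain ⟨r1, r2, r3, r4, rfl⟩ := hz
  unfold zf
  refine Commute.mul_left (Commute.mul_left (Commute.mul_left ?_ ?_) ?_) ?_ <;>
    apply rho_comm_two

lemma IsZ.comm_ev {z : G} (hz : IsZ z) (i : Fin 3) (l : List Letter) : Commute z (ev i l) :=
  commute_ev (fun _ _ => hz.comm_rho _ _) l

lemma isZ_rho (j : J) (f : ℤ[X]) : IsZ (rho j (2 * f)) := by
  obtain ⟨i, b⟩ := j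
  have h1 := GM.lin1 f
  have h2 := GM.lin2 f
  have e1 : zf (-f) (-f) (-f) 0 * zf f f f 0 = 1 := by rw [← zf_add]; simp [zf_zero]
  have e2 : zf (-f) 0 (-f) (-f) * zf f 0 f f = 1 := by rw [← zf_add]; simp [zf_zero]
  fin_cases i <;> cases b
  · refine ⟨-f, 0, -f, -f, ?_⟩
    have e3 : rho (0, false) (2 * f) * zf f 0 f f = 1 := by
      simpa [zf, rho_zero', mul_assoc, GM] using h2
    exact mul_right_cancel (e3.trans e2.symm)
  · refine ⟨-f, -f, -f, 0, ?_⟩
    have e3 : rho (0, true) (2 * f) * zf f f f 0 = 1 := by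
      simpa [zf, rho_zero', mul_assoc, GM] using h1
    exact mul_right_cancel (e3.trans e1.symm)
  · exact ⟨0, f, 0, 0, by simp [zf, rho_zero']⟩
  · exact ⟨f, 0, 0, 0, by simp [zf, rho_zero']⟩
  · exact ⟨0, 0, 0, f, by simp [zf, rho_zero']⟩
  · exact ⟨0, 0, f, 0, by simp [zf, rho_zero']⟩

lemma isZ_rho' (j : J) {f : ℤ[X]} (h : 2 ∣ f) : IsZ (rho j f) := by
  obtain ⟨g, rfl⟩ := h
  exact isZ_rho j g

/-- Reduced words: all letters odd, neighbouring letters from different sides. -/
def Red (l : List Letter) : Prop :=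
  (∀ p ∈ l, ¬ (2 : ℤ[X]) ∣ p.2) ∧ l.IsChain (fun p q => p.1 ≠ q.1)

lemma nf (i : Fin 3) (l : List Letter) :
    ∃ z l', IsZ z ∧ Red l' ∧ l'.length ≤ l.length ∧ ev i l = z * ev i l' := by
  induction l with
  | nil => exact ⟨1, [], IsZ.one, ⟨by simp, by simp⟩, le_rfl, by simp⟩
  | cons p l ih =>
    obtain ⟨z, l', hz, hr, hl, he⟩ := ih
    have key : ev i (p :: l) = z * (rho (i, p.1) p.2 * ev i l') := by
      rw [ev_cons, he, ← mul_assoc, ← mul_assoc, (hz.comm_rho _ _).eq]
    by_cases hp : (2 : ℤ[X]) ∣ p.2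
    · refine ⟨z * rho (i, p.1) p.2, l', hz.mul (isZ_rho' _ hp), hr, ?_, ?_⟩
      · simp only [List.length_cons]; omega
      · rw [key, mul_assoc]
    · rcases l' with _ | ⟨q, m⟩
      · refine ⟨z, [p], hz, ⟨by simpa using hp, by simp⟩, by simp, ?_⟩
        rw [key, ev_cons]
      · by_cases hb : p.1 = q.1
        · have e : rho (i, p.1) p.2 * ev i (q :: m) = rho (i, q.1) (p.2 + q.2) * ev i m := by
            rw [ev_cons, rho_add, hb, mul_assoc]
          by_cases hq : (2 : ℤ[X]) ∣ p.2 + q.2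
          · refine ⟨z * rho (i, q.1) (p.2 + q.2), m, hz.mul (isZ_rho' _ hq),
              ⟨fun r hr' => hr.1 r (List.mem_cons_of_mem _ hr'), hr.2.tail⟩, ?_, ?_⟩
            · simp only [List.length_cons] at hl ⊢; omega
            · rw [key, e, mul_assoc]
          · refine ⟨z, (q.1, p.2 + q.2) :: m, hz, ⟨?_, ?_⟩, ?_, ?_⟩
            · intro r hr'
              rcases List.mem_cons.mp hr' with rfl | h
              · exact hq
              · exact hr.1 r (List.mem_cons_of_mem _ h)
            · have := hr.2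
              rw [List.isChain_cons] at this ⊢
              exact this
            · simp only [List.length_cons] at hl ⊢; omega
            · rw [key, e, ev_cons]
        · refine ⟨z, p :: q :: m, hz, ⟨?_, ?_⟩, ?_, ?_⟩
          · intro r hr'
            rcases List.mem_cons.mp hr' with rfl | h
            · exact hp
            · exact hr.1 r h
          · exact List.isChain_cons_cons.mpr ⟨hb, hr.2⟩
          · simp only [List.length_cons] at hl ⊢; omega
          · rw [key, ev_cons i p]

/-- Cyclically reduced words. -/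
def CRed (l : List Letter) : Prop := l.length ≤ 1 ∨ (l ≠ [] ∧ Red (l ++ l))

lemma cnf (i : Fin 3) (n : ℕ) : ∀ l : List Letter, l.length ≤ n →
    ∃ c z l', IsZ z ∧ CRed l' ∧ ev i l = ev i c * (z * ev i l') * (ev i c)⁻¹ := by
  induction n with
  | zero =>
    intro l hl
    exact ⟨[], 1, l, IsZ.one, Or.inl (by omega), by simp [ev_nil]⟩
  | succ n ih =>
    intro l hl
    obtain ⟨z, l', hz, hr, hl', he⟩ := nf i l
    rcases l' with _ | ⟨p, m⟩
    · exact ⟨[], z, [], hz, Or.inl (by simp), by simp [ev_nil, he]⟩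
    rcases List.eq_nil_or_concat m with rfl | ⟨m', q, rfl⟩
    · exact ⟨[], z, [p], hz, Or.inl (by simp), by simp [ev_nil, he]⟩
    rw [List.concat_eq_append] at *
    by_cases hb : q.1 = p.1
    · obtain ⟨c, z', l'', hz', hc, he'⟩ := ih (m' ++ [(q.1, q.2 + p.2)]) (by
        simp only [List.length_cons, List.length_append, List.length_nil] at hl' ⊢; omega)
      refine ⟨p :: c, z * z', l'', hz.mul hz', hc, ?_⟩
      have e1 : ev i (p :: (m' ++ [q])) =
          rho (i, p.1) p.2 * ev i (m' ++ [(q.1, q.2 + p.2)]) * (rho (i, p.1) p.2)⁻¹ := by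
        rw [ev_cons, ev_append, ev_append, ev_single, ev_single, rho_add, hb]
        simp [mul_assoc]
      rw [he, e1, he', ev_cons]
      have c1 := hz.comm_rho (i, p.1) p.2
      have c2 := hz.comm_ev i c
      simp only [mul_assoc, mul_inv_rev]
      rw [c1.left_comm, c2.left_comm]
    · refine ⟨[], z, p :: (m' ++ [q]), hz, Or.inr ⟨by simp, ?_, ?_⟩, by simp [ev_nil, he]⟩
      · intro r hr'
        rcases List.mem_append.mp hr' with h | h <;> exact hr.1 r h
      · rw [List.isChain_append]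
        refine ⟨hr.2, hr.2, ?_⟩
        intro x hx y hy
        rw [← List.cons_append, List.getLast?_concat] at hx
        simp only [List.head?_cons, Option.mem_def, Option.some.injEq] at hx hy
        subst hx hy
        exact hb

lemma red_flatten {l : List Letter} (hne : l ≠ []) (h : Red (l ++ l)) (n : ℕ) :
    Red (List.replicate (n + 1) l).flatten := by
  have h2 := List.isChain_append.mp h.2
  refine ⟨?_, ?_⟩
  · intro p hp
    rw [List.mem_flatten] at hp
    obtain ⟨m, hm, hp⟩ := hp
    rw [List.eq_of_mem_replicate hm] at hp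
    exact h.1 p (List.mem_append_left _ hp)
  · induction n with
    | zero => simpa using h2.1
    | succ n ih =>
      rw [List.replicate_succ, List.flatten_cons, List.isChain_append]
      refine ⟨h2.1, ih, ?_⟩
      intro x hx y hy
      refine h2.2.2 x hx y ?_
      rw [List.replicate_succ, List.flatten_cons] at hy
      rcases l with _ | ⟨p, m⟩
      · exact absurd rfl hne
      · simpa using hy

/-- The subgroup generated by all letters. -/
def K : Subgroup G := Subgroup.closure (Set.range fun p : J × ℤ[X] => rho p.1 p.2)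

lemma rho_mem_K (j : J) (f : ℤ[X]) : rho j f ∈ K := Subgroup.subset_closure ⟨(j, f), rfl⟩

lemma K_decomp {g : G} (hg : g ∈ K) : ∃ l0 l1 l2, g = ev 0 l0 * ev 1 l1 * ev 2 l2 := by
  have step : ∀ (j : J) (f : ℤ[X]) (y : G), (∃ l0 l1 l2, y = ev 0 l0 * ev 1 l1 * ev 2 l2) →
      ∃ l0 l1 l2, rho j f * y = ev 0 l0 * ev 1 l1 * ev 2 l2 := by
    rintro ⟨i, b⟩ f y ⟨l0, l1, l2, rfl⟩
    fin_cases i
    · exact ⟨(b, f) :: l0, l1, l2, by simp [ev_cons, mul_assoc]⟩
    · refine ⟨l0, (b, f) :: l1, l2, ?_⟩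
      have := rho_ev_comm (i := 1) (i' := 0) (by decide) b f l0
      simp only [ev_cons, mul_assoc]
      exact this.left_comm _
    · refine ⟨l0, l1, (b, f) :: l2, ?_⟩
      have h0 := rho_ev_comm (i := 2) (i' := 0) (by decide) b f l0
      have h1 := rho_ev_comm (i := 2) (i' := 1) (by decide) b f l1
      simp only [ev_cons, mul_assoc]
      exact (h0.left_comm _).trans (congrArg _ (h1.left_comm _))
  induction hg using Subgroup.closure_induction_left with
  | one => exact ⟨[], [], [], by simp [ev_nil]⟩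
  | mul_left x hx y hy ih =>
    obtain ⟨p, rfl⟩ := hx
    exact step _ _ _ ih
  | inv_mul_cancel x hx y hy ih =>
    obtain ⟨p, rfl⟩ := hx
    simp only [← rho_neg']
    exact step _ _ _ ih

lemma conj_mem_K {u : G} (hu : ∀ j f, u * rho j f * u⁻¹ ∈ K) {g : G} (hg : g ∈ K) :
    u * g * u⁻¹ ∈ K := by
  have : K ≤ K.comap (MulAut.conj u).toMonoidHom := by
    rw [K, Subgroup.closure_le]
    rintro _ ⟨p, rfl⟩
    exact hu p.1 p.2
  exact this hg

lemma s_conj_K {g : G} (hg : g ∈ K) : gs * g * gs⁻¹ ∈ K :=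
  conj_mem_K (fun j f => by
    have := GM.conj_s j f
    simp only [GM] at this
    rw [this]; exact rho_mem_K _ _) hg

lemma t_conj_K {g : G} (hg : g ∈ K) : gt * g * gt⁻¹ ∈ K :=
  conj_mem_K (fun j f => by
    have := GM.conj_t j f
    simp only [GM] at this
    rw [this]; exact rho_mem_K _ _) hg

lemma cj_K {g : G} (hg : g ∈ K) (n : ℕ) : cj (gs * gt) n g ∈ K := by
  induction n with
  | zero => rwa [cj_zero]
  | succ n ih =>
    rw [cj_succ]
    have := s_conj_K (t_conj_K ih)
    simpa [mul_assoc] using this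

/-- The union of the conjugates of `K` by negative powers of `s t`. -/
def Kinf : Subgroup G where
  carrier := {g | ∃ n, cj (gs * gt) n g ∈ K}
  one_mem' := ⟨0, by rw [cj_zero]; exact K.one_mem⟩
  mul_mem' := by
    rintro a b ⟨m, hm⟩ ⟨n, hn⟩
    refine ⟨m + n, ?_⟩
    rw [cj_mul]
    refine K.mul_mem ?_ ?_
    · rw [add_comm, cj_add]; exact cj_K hm n
    · rw [cj_add]; exact cj_K hn m
  inv_mem' := by
    rintro a ⟨m, hm⟩
    refine ⟨m, ?_⟩
    have := K.inv_mem hm
    simpa [cj, mul_assoc] using this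

lemma cj_conj {Q : Type*} [Group Q] {c u : Q} (h : Commute c u) (n : ℕ) (g : Q) :
    cj c n (u * g * u⁻¹) = u * cj c n g * u⁻¹ := by
  have h1 : Commute (c ^ n) u := h.pow_left n
  simp only [cj, ← mul_assoc]
  rw [h1.eq, mul_assoc (u * c ^ n * g), mul_assoc (u * c ^ n * g), h1.inv_inv.eq]

instance Kinf_normal : Kinf.Normal := by
  rw [← Subgroup.normalizer_eq_top_iff, eq_top_iff]
  intro g _
  have cs : Commute (gs * gt) gs := (Commute.refl gs).mul_left G_st.symm
  have ct : Commute (gs * gt) gt := G_st.mul_left (Commute.refl gt)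
  refine PresentedGroup.generated_by rels _ ?_ g
  rintro (b | j)
  · cases b
    · change gt ∈ _
      rw [Subgroup.mem_normalizer_iff]
      intro h
      constructor
      · rintro ⟨n, hn⟩
        exact ⟨n, by rw [cj_conj ct]; exact t_conj_K hn⟩
      · rintro ⟨n, hn⟩
        refine ⟨n + 1, ?_⟩
        rw [cj_conj ct] at hn
        rw [cj_succ]
        simpa [mul_assoc] using s_conj_K hn
    · change gs ∈ _
      rw [Subgroup.mem_normalizer_iff]
      intro h
      constructor
      · rintro ⟨n, hn⟩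
        exact ⟨n, by rw [cj_conj cs]; exact s_conj_K hn⟩
      · rintro ⟨n, hn⟩
        refine ⟨n + 1, ?_⟩
        rw [cj_conj cs] at hn
        have e : gs * gt * cj (gs * gt) n h * (gs * gt)⁻¹ =
            gt * (gs * cj (gs * gt) n h * gs⁻¹) * gt⁻¹ := by
          generalize cj (gs * gt) n h = w
          rw [G_st.eq]; simp [mul_assoc]
        rw [cj_succ, e]
        exact t_conj_K hn
  · change gx j ∈ _
    apply Subgroup.le_normalizer
    exact ⟨0, by rw [cj_zero, ← rho_one]; exact rho_mem_K _ _⟩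

/-- An element killed by the exponent-sum map lies in `Kinf`. -/
lemma mem_Kinf (η : G →* Multiplicative (ℤ × ℤ)) (hs : η gs = Multiplicative.ofAdd (1, 0))
    (ht : η gt = Multiplicative.ofAdd (0, 1)) (hx : ∀ j, η (gx j) = 1) {g : G} (hg : η g = 1) :
    g ∈ Kinf := by
  let θ : Multiplicative (ℤ × ℤ) →* G :=
    { toFun := fun p => gs ^ p.toAdd.1 * gt ^ p.toAdd.2
      map_one' := by simp
      map_mul' := by
        intro p q
        simp only [toAdd_mul, Prod.fst_add, Prod.snd_add, zpow_add, mul_assoc]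
        congr 1
        exact (G_st.zpow_zpow _ _).left_comm _ }
  have h : (QuotientGroup.mk' Kinf).comp (θ.comp η) = QuotientGroup.mk' Kinf := by
    apply PresentedGroup.ext
    rintro (b | j)
    · cases b
      · change QuotientGroup.mk' Kinf (θ (η gt)) = QuotientGroup.mk' Kinf gt
        rw [ht]; simp [θ]
      · change QuotientGroup.mk' Kinf (θ (η gs)) = QuotientGroup.mk' Kinf gs
        rw [hs]; simp [θ]
    · change QuotientGroup.mk' Kinf (θ (η (gx j))) = QuotientGroup.mk' Kinf (gx j)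
      rw [hx, map_one, map_one]
      symm
      rw [QuotientGroup.mk'_apply, QuotientGroup.eq_one_iff]
      exact ⟨0, by rw [cj_zero, ← rho_one]; exact rho_mem_K _ _⟩
  have h2 := DFunLike.congr_fun h g
  simp only [MonoidHom.comp_apply, hg, map_one] at h2
  exact (QuotientGroup.eq_one_iff g).mp h2.symm

end Pool.Agent.Lib.MP_decb17_al
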